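import Pool.Agent.K1H72.CD.Stm

/-!
# Infinite moments
-/

set_option autoImplicit false

namespace Pool.Agent.K1H83.CD

open MeasureTheory Filter Topology
open Pool.Agent.K1H72.CD

theorem int_main (Ω : Type) [MeasurableSpace Ω] (μ : Measure Ω) [IsProbabilityMeasure μ]
    (f : Ω → ENNReal) (E : ℕ → Set Ω) (c s : ℝ) (hc : 0 < c) (hs : 5 / 4 ≤ s)
    (hE : ∀ m, MeasurableSet (E m)) (hf : ∀ m, ∀ ω ∈ E m, (m : ENNReal) ^ s ≤ f ω)
    (hm : ∀ m : ℕ, 1 ≤ m → c * (m : ℝ) ^ (-(5 / 4) : ℝ) ≤ μ.real (E m)) :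
    ∫⁻ ω, f ω ∂μ = ⊤ := by
  by_contra hI
  have h1 : ∀ m : ℕ, (m : ENNReal) ^ s * μ (E m) ≤ ∫⁻ ω in E m, f ω ∂μ := by
    intro m
    rw [← setLIntegral_const]
    exact setLIntegral_mono' (hE m) (hf m)
  have h2 : ∀ m : ℕ, 1 ≤ m → μ (E m) ≤ (∫⁻ ω, f ω ∂μ) * (m : ENNReal)⁻¹ := by
    intro m h
    have h1m : (1 : ENNReal) ≤ (m : ENNReal) := by exact_mod_cast h
    have h3 : (m : ENNReal) ≤ (m : ENNReal) ^ s := by
      calc (m : ENNReal) = (m : ENNReal) ^ (1 : ℝ) := (ENNReal.rpow_one _).symm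
        _ ≤ (m : ENNReal) ^ s := ENNReal.rpow_le_rpow_of_exponent_le h1m (by linarith)
    have h4 : μ (E m) * (m : ENNReal) ≤ ∫⁻ ω, f ω ∂μ := by
      calc μ (E m) * (m : ENNReal) ≤ μ (E m) * (m : ENNReal) ^ s := by gcongr
        _ = (m : ENNReal) ^ s * μ (E m) := mul_comm _ _
        _ ≤ ∫⁻ ω in E m, f ω ∂μ := h1 m
        _ ≤ ∫⁻ ω, f ω ∂μ := setLIntegral_le_lintegral _ _
    rw [← div_eq_mul_inv]
    have h0 : (m : ENNReal) ≠ 0 := by
      have : m ≠ 0 := by omega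
      exact_mod_cast this
    exact (ENNReal.le_div_iff_mul_le (Or.inl h0) (Or.inl (ENNReal.natCast_ne_top m))).2 h4
  have h3 : Tendsto (fun m : ℕ => (∫⁻ ω, f ω ∂μ) * (m : ENNReal)⁻¹) atTop (𝓝 0) := by
    have h4 := ENNReal.Tendsto.const_mul (a := ∫⁻ ω, f ω ∂μ) ENNReal.tendsto_inv_nat_nhds_zero
      (Or.inr hI)
    rwa [mul_zero] at h4
  have h4 : Tendsto (μ ∘ E) atTop (𝓝 0) := by
    refine tendsto_of_tendsto_of_tendsto_of_le_of_le' tendsto_const_nhds h3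
      (Eventually.of_forall fun m => zero_le) ?_
    filter_upwards [eventually_ge_atTop 1] with m h
    exact h2 m h
  have h5 := tendsto_setLIntegral_zero hI h4
  have h6 : ∀ m : ℕ, 1 ≤ m → ENNReal.ofReal c ≤ ∫⁻ ω in E m, f ω ∂μ := by
    intro m h
    have hm0 : (0 : ℝ) < m := by
      have : 0 < m := h
      exact_mod_cast this
    have h1m : (1 : ENNReal) ≤ (m : ENNReal) := by exact_mod_cast h
    have e1 : ENNReal.ofReal ((m : ℝ) ^ (5 / 4 : ℝ)) ≤ (m : ENNReal) ^ s := by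
      rw [← ENNReal.ofReal_rpow_of_pos hm0, ENNReal.ofReal_natCast]
      exact ENNReal.rpow_le_rpow_of_exponent_le h1m hs
    have e2 : ENNReal.ofReal (c * (m : ℝ) ^ (-(5 / 4) : ℝ)) ≤ μ (E m) := by
      rw [← ofReal_measureReal]
      exact ENNReal.ofReal_le_ofReal (hm m h)
    have e3 : c = (m : ℝ) ^ (5 / 4 : ℝ) * (c * (m : ℝ) ^ (-(5 / 4) : ℝ)) := by
      rw [Real.rpow_neg hm0.le]
      have : (m : ℝ) ^ (5 / 4 : ℝ) ≠ 0 := (Real.rpow_pos_of_pos hm0 _).ne'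
      field_simp
    calc ENNReal.ofReal c = ENNReal.ofReal ((m : ℝ) ^ (5 / 4 : ℝ)) *
          ENNReal.ofReal (c * (m : ℝ) ^ (-(5 / 4) : ℝ)) := by
            rw [← ENNReal.ofReal_mul (Real.rpow_pos_of_pos hm0 _).le, ← e3]
      _ ≤ (m : ENNReal) ^ s * μ (E m) := mul_le_mul' e1 e2
      _ ≤ _ := h1 m
  have h7 : ENNReal.ofReal c ≤ 0 := by
    refine ge_of_tendsto h5 ?_
    filter_upwards [eventually_ge_atTop 1] with m h
    exact h6 m h
  have h8 : ENNReal.ofReal c = 0 := le_antisymm h7 (zero_le)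
  rw [ENNReal.ofReal_eq_zero] at h8
  linarith

theorem t_INT : S_INT :=
  fun Ω _ μ _ f E c s hc hs hE hf hm => int_main Ω μ f E c s hc hs hE hf hm

end Pool.Agent.K1H83.CD
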